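import Mathlib

namespace Pool.Agent.Results.MP_4aa424_co.Blowup

open Finset

/-- A graph is chordal if every cycle of length at least four (an injective cyclic sequence of
vertices with consecutive vertices adjacent) has a chord. -/
def Chordal {V : Type} (G : SimpleGraph V) : Prop :=
  ∀ l : ℕ, 4 ≤ l → ∀ f : ZMod l → V, Function.Injective f → (∀ i, G.Adj (f i) (f (i + 1))) →
    ∃ i j, j ≠ i + 1 ∧ i ≠ j + 1 ∧ G.Adj (f i) (f j)

/-- A wall of height `h`: a partition into `h` nonempty independent levels in which every vertex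
has a neighbour in each lower level. -/
def IsWall {V : Type} (G : SimpleGraph V) (h : ℕ) (c : V → Fin h) : Prop :=
  Function.Surjective c ∧ (∀ u v, G.Adj u v → c u ≠ c v) ∧
    ∀ v (j : Fin h), j < c v → ∃ w, G.Adj v w ∧ c w = j

/-- The First-Fit chromatic number: the largest height of a wall. -/
noncomputable def chiFF {V : Type} (G : SimpleGraph V) : ℕ :=
  sSup {h | ∃ c : V → Fin h, IsWall G h c}

lemma wall_bdd {V : Type} [Fintype V] (G : SimpleGraph V) :
    BddAbove {h | ∃ c : V → Fin h, IsWall G h c} := by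
  refine ⟨Fintype.card V, ?_⟩
  rintro h ⟨c, hc, -⟩
  simpa using Fintype.card_le_of_surjective c hc

/-- child relation in the binomial tree -/
def Child {t : ℕ} (S T : Finset (Fin t)) : Prop :=
  ∃ j : Fin t, (∀ i ∈ S, j < i) ∧ T = insert j S

lemma child_card {t : ℕ} {S T : Finset (Fin t)} (h : Child S T) : T.card = S.card + 1 := by
  obtain ⟨j, hj, rfl⟩ := h
  exact card_insert_of_notMem (fun hm => lt_irrefl _ (hj j hm))

lemma child_unique {t : ℕ} {S S' T : Finset (Fin t)} (h : Child S T) (h' : Child S' T) :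
    S = S' := by
  obtain ⟨j, hj, rfl⟩ := h
  obtain ⟨j', hj', h2⟩ := h'
  have hjj : j = j' := by
    have h3 : j ∈ insert j' S' := h2 ▸ mem_insert_self j S
    have h4 : j' ∈ insert j S := h2 ▸ mem_insert_self j' S'
    rcases mem_insert.1 h3 with h5 | h5
    · exact h5
    · rcases mem_insert.1 h4 with h6 | h6
      · exact h6.symm
      · exact absurd (hj j' h6) (not_lt.2 (hj' j h5).le)
  subst hjj
  have n1 : j ∉ S := fun hm => lt_irrefl _ (hj j hm)
  have n2 : j ∉ S' := fun hm => lt_irrefl _ (hj' j hm)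
  rw [← erase_insert n1, h2, erase_insert n2]

def Good (k : ℕ) {t : ℕ} (x : Finset (Fin t) × Fin k) : Prop :=
  (x.2 : ℕ) < k / 2 ∨ (x.1 = ∅ ∧ (x.2 : ℕ) < k - k / 2)

def GG (k t : ℕ) : SimpleGraph (Finset (Fin t) × Fin k) where
  Adj x y := Good k x ∧ Good k y ∧ ((x.1 = y.1 ∧ x.2 ≠ y.2) ∨ Child x.1 y.1 ∨ Child y.1 x.1)
  symm := ⟨by
    rintro x y ⟨h1, h2, h3⟩
    refine ⟨h2, h1, ?_⟩
    rcases h3 with h | h | h
    · exact Or.inl ⟨h.1.symm, h.2.symm⟩
    · exact Or.inr (Or.inr h)
    · exact Or.inr (Or.inl h)⟩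
  loopless := ⟨by
    rintro x ⟨-, -, h3⟩
    rcases h3 with h | h | h
    · exact h.2 rfl
    · have := child_card h; omega
    · have := child_card h; omega⟩

lemma GG_adj {k t : ℕ} {x y : Finset (Fin t) × Fin k} : (GG k t).Adj x y ↔
    Good k x ∧ Good k y ∧ ((x.1 = y.1 ∧ x.2 ≠ y.2) ∨ Child x.1 y.1 ∨ Child y.1 x.1) := Iff.rfl

lemma simplicial {k t : ℕ} {x y z : Finset (Fin t) × Fin k} (hy : (GG k t).Adj x y)
    (hz : (GG k t).Adj x z) (cy : y.1.card ≤ x.1.card) (cz : z.1.card ≤ x.1.card)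
    (hne : y ≠ z) : (GG k t).Adj y z := by
  obtain ⟨-, gy, hy⟩ := hy
  obtain ⟨-, gz, hz⟩ := hz
  refine ⟨gy, gz, ?_⟩
  have key : y.1 = z.1 → y.1 = z.1 ∧ y.2 ≠ z.2 := fun h =>
    ⟨h, fun h2 => hne (Prod.ext h h2)⟩
  rcases hy with hy | hy | hy
  · rcases hz with hz | hz | hz
    · exact Or.inl (key (hy.1.symm.trans hz.1))
    · have := child_card hz; omega
    · exact Or.inr (Or.inr (hy.1 ▸ hz))
  · have := child_card hy; omega
  · rcases hz with hz | hz | hz
    · exact Or.inr (Or.inl (hz.1 ▸ hy))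
    · have := child_card hz; omega
    · exact Or.inl (key (child_unique hy hz))

lemma GG_chordal (k t : ℕ) : Chordal (GG k t) := by
  intro l hl f hf hadj
  have : NeZero l := ⟨by omega⟩
  obtain ⟨i, -, hi⟩ := exists_max_image (univ : Finset (ZMod l)) (fun i => (f i).1.card)
    univ_nonempty
  have nz : ∀ a : ℕ, 0 < a → a < 4 → (a : ZMod l) ≠ 0 := by
    intro a h0 h4 h
    have := Nat.le_of_dvd h0 ((ZMod.natCast_eq_zero_iff a l).1 h)
    omega
  have n1 := nz 1 (by norm_num) (by norm_num)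
  have n2 := nz 2 (by norm_num) (by norm_num)
  have n3 := nz 3 (by norm_num) (by norm_num)
  refine ⟨i - 1, i + 1, ?_, ?_, ?_⟩
  · intro h; apply n1; push_cast; linear_combination h
  · intro h; apply n3; push_cast; linear_combination -h
  · have a1 : (GG k t).Adj (f i) (f (i - 1)) := by
      have := hadj (i - 1)
      rw [sub_add_cancel] at this
      exact this.symm
    refine simplicial a1 (hadj i) (hi _ (mem_univ _)) (hi _ (mem_univ _)) ?_
    intro h
    have := hf h
    apply n2; push_cast; linear_combination -this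

lemma good_lt {k t : ℕ} {x : Finset (Fin t) × Fin k} (h : Good k x) (hne : x.1.card ≠ 0) :
    (x.2 : ℕ) < k / 2 := by
  rcases h with h | h
  · exact h
  · rw [h.1] at hne; simp at hne

lemma good_lt' {k t : ℕ} {x : Finset (Fin t) × Fin k} (h : Good k x) :
    (x.2 : ℕ) < k - k / 2 := by
  rcases h with h | h
  · omega
  · exact h.2

lemma GG_clique_le (k t : ℕ) (s : Finset (Finset (Fin t) × Fin k))
    (hs : (GG k t).IsClique (s : Set _)) : s.card ≤ k := by
  classical
  let c : Finset (Fin t) × Fin k → ℕ := fun x =>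
    if x.1.card % 2 = 0 ∨ ¬ Good k x then x.2 else k - k / 2 + x.2
  have hc : ∀ x ∈ s, c x ∈ range k := by
    intro x _
    simp only [c, mem_range]
    split_ifs with h
    · exact x.2.2
    · push Not at h
      have := good_lt h.2 (by omega)
      omega
  have hinj : Set.InjOn c s := by
    intro x hx y hy hxy
    by_contra hne
    obtain ⟨gx, gy, h⟩ := hs hx hy hne
    have lx := good_lt' gx
    have ly := good_lt' gy
    simp only [c, gx, gy, not_true_eq_false, or_false] at hxy
    rcases h with h | h | h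
    · rw [h.1] at hxy
      apply h.2
      apply Fin.ext
      split_ifs at hxy <;> omega
    · have := child_card h
      split_ifs at hxy <;> omega
    · have := child_card h
      split_ifs at hxy <;> omega
  simpa using card_le_card_of_injOn c hc hinj

lemma GG_cliqueNum (k t : ℕ) : (GG k (t + 1)).cliqueNum = k := by
  classical
  apply le_antisymm
  · obtain ⟨s, hs⟩ := (GG k (t + 1)).exists_isNClique_cliqueNum
    rw [← hs.card_eq]
    exact GG_clique_le k (t + 1) s hs.isClique
  · let e : Fin k → Finset (Fin (t + 1)) × Fin k := fun a =>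
      if h : (a : ℕ) < k - k / 2 then (∅, a) else ({0}, ⟨a - (k - k / 2), by omega⟩)
    have ch : Child (∅ : Finset (Fin (t + 1))) {0} := ⟨0, by simp, by simp⟩
    have hadj : ∀ a b : Fin k, a ≠ b → (GG k (t + 1)).Adj (e a) (e b) := by
      intro a b hab
      have hab' : (a : ℕ) ≠ b := fun h => hab (Fin.ext h)
      have ha := a.2
      have hb := b.2
      simp only [e]
      split_ifs with h1 h2 h2
      · exact ⟨Or.inr ⟨rfl, h1⟩, Or.inr ⟨rfl, h2⟩, Or.inl ⟨rfl, hab⟩⟩
      · exact ⟨Or.inr ⟨rfl, h1⟩, Or.inl (by simp only; omega), Or.inr (Or.inl ch)⟩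
      · exact ⟨Or.inl (by simp only; omega), Or.inr ⟨rfl, h2⟩, Or.inr (Or.inr ch)⟩
      · refine ⟨Or.inl (by simp only; omega), Or.inl (by simp only; omega), Or.inl ⟨rfl, ?_⟩⟩
        intro h
        have := congrArg Fin.val h
        simp only at this
        omega
    have einj : Function.Injective e := by
      intro a b h
      by_contra hab
      exact (hadj a b hab).ne h
    have hcl : (GG k (t + 1)).IsClique ((univ.map ⟨e, einj⟩ : Finset _) : Set _) := by
      intro x hx y hy hxy
      simp only [coe_map, Function.Embedding.coeFn_mk, coe_univ, Set.image_univ,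
        Set.mem_range] at hx hy
      obtain ⟨a, rfl⟩ := hx
      obtain ⟨b, rfl⟩ := hy
      exact hadj a b (fun h => hxy (h ▸ rfl))
    have := hcl.card_le_cliqueNum
    simpa using this

/-- the level of a node of the binomial tree -/
def mu {t : ℕ} (S : Finset (Fin t)) : ℕ := if h : S.Nonempty then (S.min' h : ℕ) else t

lemma mu_le {t : ℕ} (S : Finset (Fin t)) : mu S ≤ t := by
  unfold mu
  split_ifs with h
  · exact (S.min' h).2.le
  · exact le_rfl

lemma mu_lt {t : ℕ} (S : Finset (Fin t)) (h : S.Nonempty) : mu S < t := by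
  unfold mu
  rw [dif_pos h]
  exact (S.min' h).2

lemma mu_insert {t : ℕ} (S : Finset (Fin t)) (j : Fin t) (hj : ∀ i ∈ S, j < i) :
    mu (insert j S) = j := by
  unfold mu
  rw [dif_pos (insert_nonempty j S)]
  congr 1
  apply le_antisymm
  · exact min'_le _ _ (mem_insert_self _ _)
  · apply le_min'
    intro y hy
    rcases mem_insert.1 hy with h | h
    · exact h.ge
    · exact (hj y h).le

lemma lt_mu {t : ℕ} (S : Finset (Fin t)) (j : Fin t) : (∀ i ∈ S, j < i) ↔ (j : ℕ) < mu S := by
  unfold mu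
  split_ifs with h
  · constructor
    · intro hj
      exact hj _ (min'_mem S h)
    · intro hj i hi
      exact lt_of_lt_of_le (show j < S.min' h from hj) (min'_le S i hi)
  · constructor
    · intro _; exact j.2
    · intro _ i hi
      exact absurd ⟨i, hi⟩ h

lemma child_mu {t : ℕ} {S T : Finset (Fin t)} (h : Child S T) : mu T < mu S := by
  obtain ⟨j, hj, rfl⟩ := h
  rw [mu_insert S j hj]
  exact (lt_mu S j).1 hj

open Classical in
noncomputable def lev (k : ℕ) {t : ℕ} (x : Finset (Fin t) × Fin k) : ℕ :=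
  if Good k x then mu x.1 * (k / 2) + x.2 else 0

lemma lev_good {k t : ℕ} {x : Finset (Fin t) × Fin k} (h : Good k x) :
    lev k x = mu x.1 * (k / 2) + x.2 := by
  unfold lev; rw [if_pos h]

lemma lev_lt (k : ℕ) (hk : 2 ≤ k) {t : ℕ} (x : Finset (Fin t) × Fin k) :
    lev k x < t * (k / 2) + (k - k / 2) := by
  unfold lev
  split_ifs with h
  · have h1 := good_lt' h
    have h2 := Nat.mul_le_mul_right (k / 2) (mu_le x.1)
    omega
  · omega

lemma lev_child {k t : ℕ} {x y : Finset (Fin t) × Fin k} (gx : Good k x) (gy : Good k y)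
    (h : Child x.1 y.1) : lev k y < lev k x := by
  rw [lev_good gx, lev_good gy]
  have h1 := child_mu h
  have h2 := child_card h
  have h3 := good_lt gy (by omega)
  have h4 := Nat.mul_le_mul_right (k / 2) (show mu y.1 + 1 ≤ mu x.1 from h1)
  rw [add_mul] at h4
  omega

lemma lev_down {k t : ℕ} (hk : 2 ≤ k) (x : Finset (Fin t) × Fin k) (j : ℕ) (hj : j < lev k x) :
    ∃ w, (GG k t).Adj x w ∧ lev k w = j := by
  have gx : Good k x := by
    by_contra h
    unfold lev at hj
    rw [if_neg h] at hj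
    omega
  rw [lev_good gx] at hj
  have hx2 := x.2.2
  have hm : 0 < k / 2 := by omega
  by_cases hc : mu x.1 * (k / 2) ≤ j
  · have gw : Good k (x.1, (⟨j - mu x.1 * (k / 2), by omega⟩ : Fin k)) := by
      rcases gx with h | h
      · left; simp only; omega
      · right; refine ⟨h.1, ?_⟩; have := h.2; simp only; omega
    refine ⟨_, ⟨gx, gw, Or.inl ⟨rfl, ?_⟩⟩, ?_⟩
    · intro h
      have := congrArg Fin.val h
      simp only at this
      omega
    · rw [lev_good gw]; simp only; omega
  · push Not at hc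
    have h1 : j / (k / 2) < mu x.1 := (Nat.div_lt_iff_lt_mul hm).2 hc
    have h2 := mu_le x.1
    have h3 : j % (k / 2) < k / 2 := Nat.mod_lt _ hm
    let i : Fin t := ⟨j / (k / 2), by omega⟩
    have hi : ∀ a ∈ x.1, i < a := (lt_mu x.1 i).2 h1
    have gw : Good k (insert i x.1, (⟨j % (k / 2), by omega⟩ : Fin k)) := Or.inl h3
    refine ⟨_, ⟨gx, gw, Or.inr (Or.inl ⟨i, hi, rfl⟩)⟩, ?_⟩
    rw [lev_good gw]
    simp only
    rw [mu_insert _ _ hi]
    exact Nat.div_add_mod' j (k / 2)

lemma GG_chiFF (k t : ℕ) (hk : 2 ≤ k) : t * (k / 2) + (k - k / 2) ≤ chiFF (GG k t) := by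
  apply le_csSup (wall_bdd _)
  refine ⟨fun x => ⟨lev k x, lev_lt k hk x⟩, ?_, ?_, ?_⟩
  · intro j
    have gt : Good k ((∅ : Finset (Fin t)), (⟨k - k / 2 - 1, by omega⟩ : Fin k)) :=
      Or.inr ⟨rfl, by simp only; omega⟩
    have hl := lev_good gt
    have m0 : mu (∅ : Finset (Fin t)) = t := by simp [mu]
    simp only [m0] at hl
    have hj := j.2
    by_cases h : (j : ℕ) < t * (k / 2) + (k - k / 2 - 1)
    · obtain ⟨w, -, hw⟩ := lev_down hk _ j (hl ▸ h)
      exact ⟨w, Fin.ext hw⟩
    · refine ⟨_, Fin.ext (hl.trans ?_)⟩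
      omega
  · rintro u v ⟨gu, gv, h⟩ he
    have he' : lev k u = lev k v := congrArg Fin.val he
    rcases h with h | h | h
    · rw [lev_good gu, lev_good gv, h.1] at he'
      exact h.2 (Fin.ext (by omega))
    · have := lev_child gu gv h; omega
    · have := lev_child gv gu h; omega
  · intro v j hj
    obtain ⟨w, h1, h2⟩ := lev_down hk v j hj
    exact ⟨w, h1, Fin.ext h2⟩

lemma chiFF_le_one {V : Type} [Fintype V] (G : SimpleGraph V) (hG : G.cliqueNum = 1) :
    chiFF G ≤ 1 := by
  classical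
  apply csSup_le'
  rintro h ⟨c, hs, -, hd⟩
  by_contra hh
  push Not at hh
  obtain ⟨v, hv⟩ := hs ⟨1, hh⟩
  obtain ⟨w, hw, -⟩ := hd v ⟨0, by omega⟩ (by rw [hv]; exact Fin.mk_lt_mk.2 (by norm_num))
  have hcl : G.IsClique (({v, w} : Finset V) : Set V) := by
    simpa using fun _ => hw
  have := hcl.card_le_cliqueNum
  rw [card_pair hw.ne] at this
  omega

theorem result :
    (∃ c : ℝ, 0 < c ∧ ∀ k : ℕ, 2 ≤ k → ∀ N : ℕ,
      ∃ (V : Type) (_ : Fintype V) (G : SimpleGraph V), N ≤ Fintype.card V ∧ Chordal G ∧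
        G.cliqueNum = k ∧
        c * (G.cliqueNum : ℝ) * Real.log (Fintype.card V) ≤ (chiFF G : ℝ)) ∧
    (∀ c : ℝ, 0 < c → ∃ N : ℕ, ∀ (V : Type) (_ : Fintype V) (G : SimpleGraph V),
      N ≤ Fintype.card V → G.cliqueNum = 1 →
        (chiFF G : ℝ) < c * (G.cliqueNum : ℝ) * Real.log (Fintype.card V)) := by
  constructor
  · refine ⟨1 / 6, by norm_num, ?_⟩
    intro k hk N
    obtain ⟨t, ht1, ht2⟩ : ∃ t : ℕ, k ≤ t ∧ N ≤ t := ⟨max k N, le_max_left _ _, le_max_right _ _⟩
    have hcard : Fintype.card (Finset (Fin (t + 1)) × Fin k) = 2 ^ (t + 1) * k := by simp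
    have hp : t + 1 < 2 ^ (t + 1) := Nat.lt_two_pow_self
    refine ⟨Finset (Fin (t + 1)) × Fin k, inferInstance, GG k (t + 1), ?_, GG_chordal _ _,
      GG_cliqueNum k t, ?_⟩
    · rw [hcard]; nlinarith
    · rw [GG_cliqueNum, hcard]
      have h1 := GG_chiFF k (t + 1) hk
      have h2 : (t + 1) * k ≤ 3 * chiFF (GG k (t + 1)) := by
        have : k ≤ 3 * (k / 2) := by omega
        have h3 := Nat.mul_le_mul_left (t + 1) this
        have h4 : (t + 1) * (3 * (k / 2)) = 3 * ((t + 1) * (k / 2)) := by ring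
        omega
      have h2' : ((t : ℝ) + 1) * k ≤ 3 * (chiFF (GG k (t + 1)) : ℝ) := by exact_mod_cast h2
      have hk0 : (0 : ℝ) < k := by exact_mod_cast (show 0 < k by omega)
      have h5 : Real.log ((2 ^ (t + 1) * k : ℕ) : ℝ) ≤ 2 * ((t : ℝ) + 1) := by
        have h6 : ((2 ^ (t + 1) * k : ℕ) : ℝ) ≤ (2 : ℝ) ^ (2 * (t + 1)) := by
          have : 2 ^ (t + 1) * k ≤ 2 ^ (2 * (t + 1)) := by
            rw [two_mul (t + 1), pow_add 2 (t + 1) (t + 1)]
            exact Nat.mul_le_mul_left _ (by omega)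
          exact_mod_cast this
        have h7 : (0 : ℝ) < ((2 ^ (t + 1) * k : ℕ) : ℝ) := by
          exact_mod_cast Nat.mul_pos (by positivity) (show 0 < k by omega)
        have h8 := Real.log_le_log h7 h6
        rw [Real.log_pow] at h8
        have h9 : Real.log 2 ≤ 1 := by
          have := Real.log_le_sub_one_of_pos (show (0 : ℝ) < 2 by norm_num)
          linarith
        push_cast at h8 ⊢
        have h10 : (0 : ℝ) ≤ 2 * ((t : ℝ) + 1) := by positivity
        nlinarith
      nlinarith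
  · intro c hc
    obtain ⟨N, hN⟩ := exists_nat_gt (Real.exp (1 / c))
    refine ⟨N, ?_⟩
    intro V _ G hn hG
    have h1 : (chiFF G : ℝ) ≤ 1 := by exact_mod_cast chiFF_le_one G hG
    have h2 : (N : ℝ) ≤ Fintype.card V := by exact_mod_cast hn
    have h3 : 1 / c < Real.log (Fintype.card V) := by
      rw [Real.lt_log_iff_exp_lt (lt_of_lt_of_le (lt_trans (Real.exp_pos _) hN) h2)]
      exact lt_of_lt_of_le hN h2
    rw [hG]
    rw [div_lt_iff₀ hc] at h3
    push_cast
    linarith

end Pool.Agent.Results.MP_4aa424_co.Blowup
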